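import Pool.Agent.X139.UT.Asym

/-!
# MP_6a6beb_pr, Q1: early vertices among the most central vertices of a uniform attachment tree

The fraction of the `K` earliest vertices among the `⌈c K⌉` most central vertices converges to
`φ(c) = c (1 - exp (-1/c))` in probability, as first `n → ∞` and then `K → ∞`.
-/

set_option autoImplicit false

namespace Pool.Agent.Results.MP_6a6beb_pr.CentralVertices

open Finset Filter Topology
open scoped Classical
open Pool.Agent.X139.UT

/-- the sets of `m` most central vertices of the tree with the parent function `p` -/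
noncomputable def tops (n : ℕ) (p : ℕ → ℕ) (m : ℕ) : Finset (Finset (Fin (n + 1))) :=
  univ.filter (fun A => IsTop (tree n p) m A)

/-- the fraction of the `K` earliest vertices which belong to `A` -/
noncomputable def frac {n : ℕ} (K : ℕ) (A : Finset (Fin (n + 1))) : ℝ :=
  ((A.filter (fun x : Fin (n + 1) => (x : ℕ) < K)).card : ℝ) / K

/-- the probability that the fraction differs from `φ(c)` by more than `δ`, in the uniform
attachment tree, the ties being broken uniformly at random -/
noncomputable def prob (c δ : ℝ) (K n : ℕ) : ℝ :=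
  E n (fun p =>
    (((tops n p ⌈c * K⌉₊).filter (fun A => δ < |frac K A - phi c|)).card : ℝ) /
      (tops n p ⌈c * K⌉₊).card)

/-- the probability that the fraction differs from `φ(c)` by more than `δ` for some way of breaking
the ties -/
noncomputable def worst (c δ : ℝ) (K n : ℕ) : ℝ :=
  E n (fun p => if ∃ A ∈ tops n p ⌈c * K⌉₊, δ < |frac K A - phi c| then 1 else 0)

lemma tops_nonempty (n : ℕ) (p : ℕ → ℕ) (m : ℕ) (hm : m ≤ n + 1) : (tops n p m).Nonempty := by
  induction m with
  | zero =>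
    refine ⟨∅, ?_⟩
    unfold tops
    rw [mem_filter]
    exact ⟨mem_univ _, by simp, fun a ha => absurd ha (by simp)⟩
  | succ m ih =>
    obtain ⟨A, hA⟩ := ih (by omega)
    unfold tops at hA
    rw [mem_filter] at hA
    obtain ⟨-, hc, hA⟩ := hA
    have hne : (univ \ A).Nonempty := by
      rw [← card_pos, card_sdiff_of_subset (subset_univ A), card_univ, Fintype.card_fin]
      omega
    obtain ⟨b, hb, hmin⟩ := exists_min_image (univ \ A) (fun x => psi (tree n p) x) hne
    rw [Finset.mem_sdiff] at hb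
    refine ⟨insert b A, ?_⟩
    unfold tops
    rw [mem_filter]
    refine ⟨mem_univ _, ?_, fun a ha b' hb' => ?_⟩
    · rw [card_insert_of_notMem hb.2, hc]
    · rw [mem_insert, not_or] at hb'
      rcases mem_insert.1 ha with rfl | ha
      · exact hmin b' (Finset.mem_sdiff.2 ⟨mem_univ _, hb'.2⟩)
      · exact hA a ha b' hb'.2

lemma worst_eq (c δ : ℝ) (K n : ℕ) :
    worst c δ K n = E n (fun p => if Bad c δ K n p then 1 else 0) := by
  unfold worst
  apply E_congr
  intro p _
  have : (∃ A ∈ tops n p ⌈c * K⌉₊, δ < |frac K A - phi c|) ↔ Bad c δ K n p := by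
    unfold Bad tops frac
    constructor
    · rintro ⟨A, hA, h⟩
      exact ⟨A, (mem_filter.1 hA).2, h⟩
    · rintro ⟨A, hA, h⟩
      exact ⟨A, mem_filter.2 ⟨mem_univ _, hA⟩, h⟩
  rw [if_congr this rfl rfl]

lemma prob_le (c δ : ℝ) (K n : ℕ) : prob c δ K n ≤ worst c δ K n := by
  unfold prob worst
  apply E_mono
  intro p _
  split_ifs with h
  · apply div_le_one_of_le₀ _ (Nat.cast_nonneg _)
    exact_mod_cast card_filter_le _ _
  · have : (tops n p ⌈c * K⌉₊).filter (fun A => δ < |frac K A - phi c|) = ∅ := by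
      rw [filter_eq_empty_iff]
      intro A hA hd
      exact h ⟨A, hA, hd⟩
    rw [this]
    simp

lemma prob_nonneg (c δ : ℝ) (K n : ℕ) : 0 ≤ prob c δ K n :=
  E_nonneg fun _ _ => by positivity

lemma worst_nonneg (c δ : ℝ) (K n : ℕ) : 0 ≤ worst c δ K n :=
  (prob_nonneg c δ K n).trans (prob_le c δ K n)

lemma lim_aux (f : ℕ → ℕ → ℝ) (h0 : ∀ K n, 0 ≤ f K n)
    (h : ∀ ε > (0 : ℝ), ∃ K₀ : ℕ, ∀ K, K₀ ≤ K → ∀ᶠ n : ℕ in atTop, f K n ≤ ε) :
    Tendsto (fun K : ℕ => limsup (fun n => f K n) atTop) atTop (𝓝 0) := by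
  rw [Metric.tendsto_atTop]
  intro ε hε
  obtain ⟨K₀, hK⟩ := h (ε / 2) (by linarith)
  refine ⟨K₀, fun K hKK => ?_⟩
  have hev := hK K hKK
  have hle : limsup (fun n => f K n) atTop ≤ ε / 2 := by
    apply limsup_le_of_le _ hev
    exact isCoboundedUnder_le_of_le atTop (x := 0) (fun n => h0 K n)
  have hge : 0 ≤ limsup (fun n => f K n) atTop := by
    apply le_limsup_of_frequently_le
    · exact Frequently.of_forall (fun n => h0 K n)
    · exact ⟨ε / 2, by simpa using hev⟩
  rw [Real.dist_eq, sub_zero, abs_of_nonneg hge]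
  linarith

theorem result :
    -- the parent functions of the recursive trees with the vertices `0, ..., n`
    (∀ (n : ℕ) (p : ℕ → ℕ), p ∈ PF n ↔
      (∀ i, 1 ≤ i → i ≤ n → p i < i) ∧ ∀ i, i = 0 ∨ n < i → p i = 0) ∧
    (∀ n : ℕ, (PF n).card = n.factorial) ∧
    (∀ (n : ℕ) (p : ℕ → ℕ) (m : ℕ), m ≤ n + 1 → (tops n p m).Nonempty) ∧
    ∀ c : ℝ, 1 < c → ∀ δ : ℝ, 0 < δ →
      -- the question
      Tendsto (fun K : ℕ => limsup (fun n : ℕ => prob c δ K n) atTop) atTop (𝓝 0) ∧
      -- uniformly over the ways of breaking the ties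
      Tendsto (fun K : ℕ => limsup (fun n : ℕ => worst c δ K n) atTop) atTop (𝓝 0) := by
  refine ⟨mem_PF, card_PF, tops_nonempty, fun c hc δ hδ => ⟨?_, ?_⟩⟩
  · apply lim_aux _ (prob_nonneg c δ)
    intro ε hε
    obtain ⟨K₀, h⟩ := main c hc δ ε hδ hε
    refine ⟨K₀, fun K hK => ?_⟩
    filter_upwards [h K hK] with n hn
    rw [← worst_eq] at hn
    exact (prob_le c δ K n).trans hn
  · apply lim_aux _ (worst_nonneg c δ)
    intro ε hε
    obtain ⟨K₀, h⟩ := main c hc δ ε hδ hε
    refine ⟨K₀, fun K hK => ?_⟩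
    filter_upwards [h K hK] with n hn
    rwa [← worst_eq] at hn

end Pool.Agent.Results.MP_6a6beb_pr.CentralVertices
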